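import Mathlib

set_option autoImplicit false

/-!
# MP_ca77af_co: the up-color domination weight of a tree is at most its Roman domination number

Root the tree at any vertex. Given a Roman dominating function `f`, the colors are chosen from the
root downwards: a vertex `v` with `f v = 2` gets the color `2`, or `1` if its parent has color `2`;
every other vertex gets the color `0`, or `1` if its parent has color `0`. The set `D` consists of
the vertices with `f v = 2`, the vertices with `f v = 1` and color `1`, and the parents of the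
vertices with `f v = 1` and color `0`.
-/

namespace Pool.Agent.Results.MP_ca77af_co.TreesUpColor

open Finset

variable {V : Type}

/-- Proper colorings with non-negative integers. -/
def IsColoring (G : SimpleGraph V) (c : V → ℕ) : Prop := ∀ u v, G.Adj u v → c u ≠ c v

/-- `D` is an up-color dominating `c`-set: every vertex `v` outside `D` has a neighbour `d` in `D`
with `c v < c d`, and no vertex of `D` has color `0`. -/
def IsUpColorDominating (G : SimpleGraph V) (c : V → ℕ) (D : Finset V) : Prop :=
  (∀ v, v ∉ D → ∃ d ∈ D, G.Adj v d ∧ c v < c d) ∧ ∀ d ∈ D, c d ≠ 0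

/-- `ω_uc(G, c)`: the minimum weight of an up-color dominating `c`-set (`∞` if there is none). -/
noncomputable def omegaUC (G : SimpleGraph V) (c : V → ℕ) : ℕ∞ :=
  ⨅ (D : Finset V) (_ : IsUpColorDominating G c D), ((∑ d ∈ D, c d : ℕ) : ℕ∞)

/-- The up-color domination weight `Ω_uc(G)`: the minimum of `ω_uc(G, c)` over all colorings. -/
noncomputable def upColorWeight (G : SimpleGraph V) : ℕ∞ :=
  ⨅ (c : V → ℕ) (_ : IsColoring G c), omegaUC G c

/-- Roman dominating functions. -/
def IsRoman (G : SimpleGraph V) (f : V → ℕ) : Prop :=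
  (∀ v, f v ≤ 2) ∧ ∀ u, f u = 0 → ∃ v, G.Adj u v ∧ f v = 2

/-- The Roman domination number: the minimum weight of a Roman dominating function. -/
noncomputable def romanNumber [Fintype V] (G : SimpleGraph V) : ℕ :=
  sInf {w : ℕ | ∃ f : V → ℕ, IsRoman G f ∧ ∑ v, f v = w}

/-- In a tree rooted at `r` every edge joins a vertex to its parent. -/
lemma exists_parent {T : SimpleGraph V} (hT : T.IsTree) (r : V) :
    ∃ par : V → V, ∀ u v, T.Adj u v →
      (T.dist r v < T.dist r u ∧ v = par u) ∨ (T.dist r u < T.dist r v ∧ u = par v) := by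
  classical
  choose p hp hp' using fun v => hT.existsUnique_path r v
  have key : ∀ u v, T.Adj u v → T.dist r u = T.dist r v + 1 → v = (p u).penultimate := by
    intro u v h hd
    apply hT.isAcyclic.eq_penultimate_of_adj_end (hp u) h
    obtain ⟨q, hq, hq'⟩ := (hT.connected r v).exists_path_of_dist
    refine hT.isAcyclic.mem_support_of_ne_mem_support_of_adj_of_isPath (hp u) hq h ?_
    intro hu
    have h1 := SimpleGraph.dist_le (q.takeUntil u hu)
    have h2 := q.length_takeUntil_le_length hu
    omega
  refine ⟨fun v => (p v).penultimate, fun u v h => ?_⟩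
  rcases hT.dist_eq_dist_add_one_of_adj r h with h1 | h1
  · exact Or.inl ⟨by omega, key u v h h1⟩
  · exact Or.inr ⟨by omega, key v u h.symm h1⟩

/-- The color of a vertex as a function of its Roman value `a` and the color `x` of its parent. -/
def rule (a x : ℕ) : ℕ := if a = 2 then (if x = 2 then 1 else 2) else (if x = 0 then 1 else 0)

lemma rule_ne (a x : ℕ) : rule a x ≠ x := by
  unfold rule
  split_ifs <;> omega

lemma exists_coloring (T : SimpleGraph V) (rk : V → ℕ) (par : V → V) (f : V → ℕ) :
    ∃ c : V → ℕ, ∀ v, c v = (open Classical in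
      if T.Adj v (par v) ∧ rk (par v) < rk v then rule (f v) (c (par v)) else f v) := by
  classical
  let F : (v : V) → ((w : V) → rk w < rk v → ℕ) → ℕ := fun v ih =>
    if h : T.Adj v (par v) ∧ rk (par v) < rk v then rule (f v) (ih (par v) h.2) else f v
  refine ⟨(measure rk).wf.fix F, fun v => ?_⟩
  rw [WellFounded.fix_eq]
  simp only [F]
  split_ifs <;> rfl

theorem exists_good [Fintype V] {T : SimpleGraph V} (hT : T.IsTree) {f : V → ℕ}
    (hf : IsRoman T f) :
    ∃ (c : V → ℕ) (D : Finset V), IsColoring T c ∧ IsUpColorDominating T c D ∧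
      ∑ d ∈ D, c d ≤ ∑ v, f v := by
  classical
  obtain ⟨r⟩ := hT.connected.nonempty
  obtain ⟨par, hpar⟩ := exists_parent hT r
  obtain ⟨c, hc⟩ := exists_coloring T (T.dist r) par f
  have hchild : ∀ u v, T.Adj u v → T.dist r v < T.dist r u → v = par u →
      c u = rule (f u) (c v) := by
    intro u v h h1 h2
    subst h2
    rw [hc u, if_pos ⟨h, h1⟩]
  -- the range of the colors
  have hr2 : ∀ v, f v = 2 → 1 ≤ c v ∧ c v ≤ 2 := by
    intro v hv
    rw [hc v]
    split_ifs
    · rw [hv]; unfold rule; split_ifs <;> omega
    · omega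
  have hr1 : ∀ v, f v ≠ 2 → c v ≤ 1 := by
    intro v hv
    have := hf.1 v
    rw [hc v]
    split_ifs
    · unfold rule; split_ifs <;> omega
    · omega
  have hpar1 : ∀ v, f v = 1 → c v = 0 → T.Adj v (par v) ∧ T.dist r (par v) < T.dist r v ∧
      c (par v) ≠ 0 := by
    intro v hv h0
    have h1 := hc v
    by_cases h : T.Adj v (par v) ∧ T.dist r (par v) < T.dist r v
    · refine ⟨h.1, h.2, fun h2 => ?_⟩
      rw [if_pos h, hv, h2, h0] at h1
      simp [rule] at h1
    · rw [if_neg h] at h1
      omega
  set A : Finset V := univ.filter fun v => f v = 2 with hA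
  set B : Finset V := univ.filter fun v => f v = 1 ∧ c v = 1 with hB
  set C0 : Finset V := univ.filter fun v => f v = 1 ∧ c v = 0 with hC0
  set C : Finset V := (C0.image par).filter fun v => f v ≠ 2 with hC
  have hCc : C.card ≤ C0.card := (Finset.card_filter_le _ _).trans Finset.card_image_le
  refine ⟨c, A ∪ (B ∪ C), ?_, ⟨?_, ?_⟩, ?_⟩
  · intro u v h
    rcases hpar u v h with ⟨h1, h2⟩ | ⟨h1, h2⟩
    · rw [hchild u v h h1 h2]
      exact rule_ne _ _
    · rw [hchild v u h.symm h1 h2]
      exact (rule_ne _ _).symm
  · intro v hv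
    simp only [Finset.mem_union, not_or] at hv
    obtain ⟨hvA, hvB, hvC⟩ := hv
    have hv2 : f v ≠ 2 := fun h => hvA (by simp [hA, h])
    have hc1 := hr1 v hv2
    rcases Nat.eq_zero_or_pos (f v) with h0 | h0
    · obtain ⟨s, hs, hs2⟩ := hf.2 v h0
      have hsA : s ∈ A ∪ (B ∪ C) := by
        rw [Finset.mem_union]; left; simp [hA, hs2]
      refine ⟨s, hsA, hs, ?_⟩
      rcases hpar v s hs with ⟨h1, h2⟩ | ⟨h1, h2⟩
      · have h3 := hchild v s hs h1 h2
        have h4 := hr2 s hs2
        rw [h3, h0]
        unfold rule
        rw [if_neg (by norm_num), if_neg (by omega)]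
        omega
      · have h3 := hchild s v hs.symm h1 h2
        rw [h3, hs2]
        unfold rule
        rw [if_pos rfl, if_neg (by omega)]
        omega
    · have h1 : f v = 1 := by have := hf.1 v; omega
      have h2 : c v = 0 := by
        by_contra h
        exact hvB (by simp only [hB, Finset.mem_filter, Finset.mem_univ, true_and]; omega)
      obtain ⟨h3, h4, h5⟩ := hpar1 v h1 h2
      refine ⟨par v, ?_, h3, by omega⟩
      by_cases h6 : f (par v) = 2
      · rw [Finset.mem_union]; left; simp [hA, h6]
      · rw [Finset.mem_union, Finset.mem_union]; right; right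
        rw [hC, Finset.mem_filter]
        refine ⟨Finset.mem_image_of_mem par ?_, h6⟩
        simp [hC0, h1, h2]
  · intro d hd
    simp only [Finset.mem_union] at hd
    rcases hd with h | h | h
    · have := hr2 d (by simpa [hA] using h)
      omega
    · simp only [hB, Finset.mem_filter, Finset.mem_univ, true_and] at h
      omega
    · rw [hC, Finset.mem_filter, Finset.mem_image] at h
      obtain ⟨⟨v, hv, rfl⟩, -⟩ := h
      simp only [hC0, Finset.mem_filter, Finset.mem_univ, true_and] at hv
      exact (hpar1 v hv.1 hv.2).2.2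
  · have s1 : ∑ d ∈ A ∪ (B ∪ C), c d ≤ ∑ d ∈ A, c d + (∑ d ∈ B, c d + ∑ d ∈ C, c d) := by
      have e1 := Finset.sum_union_inter (s₁ := A) (s₂ := B ∪ C) (f := c)
      have e2 := Finset.sum_union_inter (s₁ := B) (s₂ := C) (f := c)
      omega
    have s2 : ∑ d ∈ A, c d ≤ ∑ d ∈ A, f d := by
      apply Finset.sum_le_sum
      intro d hd
      have h : f d = 2 := by simpa [hA] using hd
      have := hr2 d h
      omega
    have s3 : ∑ d ∈ B, c d = B.card := by
      rw [Finset.sum_congr rfl (g := fun _ => 1)]
      · simp
      · intro d hd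
        simp only [hB, Finset.mem_filter, Finset.mem_univ, true_and] at hd
        exact hd.2
    have s4 : ∑ d ∈ C, c d ≤ C.card := by
      have : ∑ d ∈ C, c d ≤ ∑ _d ∈ C, 1 := by
        apply Finset.sum_le_sum
        intro d hd
        rw [hC, Finset.mem_filter] at hd
        exact hr1 d hd.2
      simpa using this
    have s5 : ∑ v, f v = ∑ d ∈ A, f d + (B.card + C0.card) := by
      rw [← Finset.sum_filter_add_sum_filter_not univ (fun v => f v = 2) f, ← hA]
      congr 1
      have h1 : ∑ v ∈ univ.filter (fun v => ¬ f v = 2), f v =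
          ∑ v ∈ univ.filter (fun v => f v = 1), 1 := by
        symm
        rw [Finset.sum_filter, Finset.sum_filter]
        apply Finset.sum_congr rfl
        intro v _
        have := hf.1 v
        split_ifs <;> omega
      rw [h1, Finset.sum_const, smul_eq_mul, mul_one, hB, hC0, ← Finset.card_union_of_disjoint]
      · congr 1
        ext v
        simp only [Finset.mem_filter, Finset.mem_univ, true_and, Finset.mem_union]
        constructor
        · intro h
          have := hr1 v (by omega)
          omega
        · rintro (h | h)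
          · exact h.1
          · exact h.1
      · rw [Finset.disjoint_left]
        intro v h1 h2
        simp only [Finset.mem_filter, Finset.mem_univ, true_and] at h1 h2
        omega
    omega

/-- Sanity check: the Roman domination number is attained. -/
lemma exists_roman [Fintype V] (G : SimpleGraph V) :
    ∃ f : V → ℕ, IsRoman G f ∧ ∑ v, f v = romanNumber G :=
  Nat.sInf_mem (s := {w : ℕ | ∃ f : V → ℕ, IsRoman G f ∧ ∑ v, f v = w})
    ⟨_, fun _ => 1, ⟨fun _ => by norm_num, fun _ h => absurd h (by norm_num)⟩, rfl⟩

/-- Every finite tree `T` satisfies `Ω_uc(T) ≤ γ_r(T)`. -/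
theorem result (V : Type) [Fintype V] (T : SimpleGraph V) (hT : T.IsTree) :
    upColorWeight T ≤ (romanNumber T : ℕ∞) := by
  obtain ⟨f, hf, hw⟩ := exists_roman T
  obtain ⟨c, D, hc, hD, hle⟩ := exists_good hT hf
  rw [← hw]
  refine (iInf₂_le c hc).trans ((iInf₂_le D hD).trans ?_)
  exact_mod_cast hle

end Pool.Agent.Results.MP_ca77af_co.TreesUpColor
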