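import Mathlib

/-!
# Up-color domination weight versus Roman domination on trees
-/

set_option autoImplicit false

namespace Pool.Agent.Results.MP_ca77af_co.UpColorRoman

open Finset

variable {V : Type*} [Fintype V]

/-- A proper colouring with natural numbers. -/
def Proper (G : SimpleGraph V) (c : V → ℕ) : Prop := ∀ u v, G.Adj u v → c u ≠ c v

/-- `D` is an up-color dominating `c`-set. -/
def UpDominating (G : SimpleGraph V) (c : V → ℕ) (D : Finset V) : Prop :=
  (∀ v, v ∉ D → ∃ d ∈ D, G.Adj v d ∧ c v < c d) ∧ ∀ v ∈ D, c v ≠ 0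

/-- The up-color domination weight: the least weight `∑_{d ∈ D} c d` of an up-color dominating
`c`-set `D`, over all colourings `c`. -/
noncomputable def upWeight (G : SimpleGraph V) : ℕ :=
  sInf {k | ∃ (c : V → ℕ) (D : Finset V), Proper G c ∧ UpDominating G c D ∧ ∑ d ∈ D, c d = k}

/-- Roman dominating functions. -/
def Roman (G : SimpleGraph V) (f : V → ℕ) : Prop :=
  (∀ v, f v ≤ 2) ∧ ∀ u, f u = 0 → ∃ v, G.Adj u v ∧ f v = 2

/-- The Roman domination number. -/
noncomputable def romanNum (G : SimpleGraph V) : ℕ :=
  sInf {k | ∃ f : V → ℕ, Roman G f ∧ ∑ v, f v = k}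

/-- `y` is a child of `x` in the tree rooted at `r`. -/
def Child (G : SimpleGraph V) (r x y : V) : Prop := G.Adj x y ∧ G.dist r x + 1 = G.dist r y

/-- The four modes: in the set with colour 1 or 2, outside the set with colour 0 or 1. -/
inductive Mode
  | D1 | D2 | N0 | N1
  deriving DecidableEq

variable {G : SimpleGraph V} {r : V} {f : V → ℕ}

omit [Fintype V] in
theorem level (hG : G.IsTree) (r : V) {x y : V} (h : G.Adj x y) :
    G.dist r x + 1 = G.dist r y ∨ G.dist r y + 1 = G.dist r x := by
  have h1 := hG.dist_ne_of_adj r h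
  have h2 := h.diff_dist_adj (u := r)
  omega

omit [Fintype V] in
theorem parent_unique (hG : G.IsTree) (r : V) {x y z : V} (hy : Child G r y x)
    (hz : Child G r z x) : y = z := by
  obtain ⟨hy, dy⟩ := hy
  obtain ⟨hz, dz⟩ := hz
  have key : ∀ w : V, ∀ hw : G.Adj w x, G.dist r w + 1 = G.dist r x →
      ∃ p : G.Walk r w, (p.concat hw).IsPath := by
    intro w hw dw
    obtain ⟨p, hp⟩ := (hG.connected r w).exists_walk_length_eq_dist
    refine ⟨p, SimpleGraph.Walk.isPath_of_length_eq_dist _ ?_⟩
    rw [SimpleGraph.Walk.length_concat, hp, dw]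
  obtain ⟨p, hp⟩ := key y hy dy
  obtain ⟨q, hq⟩ := key z hz dz
  have h := (hG.isAcyclic.subsingleton_path r x).elim ⟨_, hp⟩ ⟨_, hq⟩
  have h2 : p.concat hy = q.concat hz := congrArg Subtype.val h
  have h3 := congrArg SimpleGraph.Walk.penultimate h2
  simpa using h3

omit [Fintype V] in
theorem exists_parent (hG : G.IsTree) {r x : V} (hx : x ≠ r) : ∃ p, Child G r p x := by
  obtain ⟨w, hw⟩ := (hG.connected x r).exists_walk_length_eq_dist
  cases w with
  | nil => exact absurd rfl hx
  | @cons _ y _ h w' =>
    refine ⟨y, h.symm, ?_⟩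
    rw [SimpleGraph.Walk.length_cons] at hw
    have h1 : G.dist y r ≤ w'.length := SimpleGraph.dist_le w'
    have h2 : G.dist r x = G.dist x r := SimpleGraph.dist_comm
    have h3 : G.dist r y = G.dist y r := SimpleGraph.dist_comm
    rcases level hG r h with h4 | h4 <;> omega

open Classical in
/-- The children of `x`. -/
noncomputable def ch (G : SimpleGraph V) (r x : V) : Finset V := univ.filter (Child G r x)

/-- `f x = 0` and `x` has a child `y` with `f y = 2`. -/
def IsU (G : SimpleGraph V) (r : V) (f : V → ℕ) (x : V) : Prop :=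
  f x = 0 ∧ ∃ y, Child G r x y ∧ f y = 2

open Classical in
/-- The number of children `y` with `f y = 1` or `IsU y`. -/
noncomputable def nc (G : SimpleGraph V) (r : V) (f : V → ℕ) (x : V) : ℕ :=
  ((ch G r x).filter fun y => f y = 1 ∨ IsU G r f y).card

/-- The mode of a child `y`, with `a = f y` and `b = nc y`, of a vertex of mode `m`. -/
def step (m : Mode) (a b : ℕ) : Mode :=
  match m with
  | .D1 => if a = 2 then .D2 else .N0
  | .D2 => if a = 2 then .D1 else .N0
  | .N0 => if a = 0 ∧ b = 0 then .N1 else .D1
  | .N1 => if a = 2 then .D2 else .N0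

open Classical in
/-- The mode of a vertex. -/
noncomputable def mode (G : SimpleGraph V) (r : V) (f : V → ℕ) (x : V) : Mode :=
  if h : ∃ p, Child G r p x then
    have : G.dist r h.choose < G.dist r x := by have := h.choose_spec.2; omega
    step (mode G r f h.choose) (f x) (nc G r f x)
  else if f x = 0 then .N0 else .D1
termination_by G.dist r x

theorem mode_child (hG : G.IsTree) {x y : V} (h : Child G r x y) :
    mode G r f y = step (mode G r f x) (f y) (nc G r f y) := by
  rw [mode]
  have h1 : ∃ p, Child G r p y := ⟨x, h⟩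
  have e : h1.choose = x := parent_unique hG r h1.choose_spec h
  rw [dif_pos h1]
  simp only [e]

theorem mode_root : mode G r f r = if f r = 0 then .N0 else .D1 := by
  rw [mode]
  have h1 : ¬ ∃ p, Child G r p r := by
    rintro ⟨p, -, hp⟩
    rw [SimpleGraph.dist_self] at hp
    omega
  rw [dif_neg h1]

/-- Colour of a mode. -/
def col : Mode → ℕ
  | .D1 => 1
  | .D2 => 2
  | .N0 => 0
  | .N1 => 1

/-- Cost of a mode. -/
def cost : Mode → ℕ
  | .D1 => 1
  | .D2 => 2
  | .N0 => 0
  | .N1 => 0

section invariants

variable (hG : G.IsTree) (hf : Roman G f)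

include hG

theorem mode_two {x : V} (hx : f x = 2) : mode G r f x = .D1 ∨ mode G r f x = .D2 := by
  by_cases hr : x = r
  · subst hr
    rw [mode_root, if_neg (by omega)]
    exact Or.inl rfl
  · obtain ⟨p, hp⟩ := exists_parent hG hr
    rw [mode_child hG hp, hx]
    cases mode G r f p <;> simp [step]

theorem mode_D2 {x : V} (hx : mode G r f x = .D2) : f x = 2 := by
  by_cases hr : x = r
  · subst hr
    rw [mode_root] at hx
    split_ifs at hx
  · obtain ⟨p, hp⟩ := exists_parent hG hr
    rw [mode_child hG hp] at hx
    cases hm : mode G r f p <;> rw [hm] at hx <;> simp only [step] at hx <;>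
      split_ifs at hx with h1 <;> assumption

theorem mode_N1 {x : V} (hx : mode G r f x = .N1) :
    f x = 0 ∧ nc G r f x = 0 ∧ ∃ p, Child G r p x ∧ mode G r f p = .N0 := by
  by_cases hr : x = r
  · subst hr
    rw [mode_root] at hx
    split_ifs at hx
  · obtain ⟨p, hp⟩ := exists_parent hG hr
    rw [mode_child hG hp] at hx
    cases hm : mode G r f p <;> rw [hm] at hx <;> simp only [step] at hx <;>
      split_ifs at hx with h1
    exact ⟨h1.1, h1.2, p, hp, hm⟩

theorem mode_N0 {x : V} (hx : mode G r f x = .N0) : f x ≠ 2 := by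
  intro h
  rcases mode_two hG (r := r) h with h1 | h1 <;> rw [h1] at hx <;> exact absurd hx (by decide)

include hf

omit [Fintype V] in
/-- A vertex of weight zero that is not of type `U` has a parent of weight two. -/
theorem parent_of_W {x : V} (hx : f x = 0) (hU : ¬ IsU G r f x) :
    ∃ p, Child G r p x ∧ f p = 2 := by
  obtain ⟨v, hv, hv2⟩ := hf.2 x hx
  rcases level hG r hv with h | h
  · exact absurd ⟨hx, v, ⟨hv, h⟩, hv2⟩ hU
  · exact ⟨v, ⟨hv.symm, h⟩, hv2⟩

/-- Children of vertices of weight different from two have weight one or two or type `U`. -/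
theorem child_U {x y : V} (hxy : Child G r x y) (hx : f x ≠ 2) (hy : f y = 0) :
    IsU G r f y := by
  by_contra h
  obtain ⟨p, hp, hp2⟩ := parent_of_W hG hf hy h
  rw [parent_unique hG r hp hxy] at hp2
  exact hx hp2

/-- A vertex of mode `N1` has only children of weight two. -/
theorem child_N1 {x y : V} (hx : mode G r f x = .N1) (hxy : Child G r x y) : f y = 2 := by
  classical
  obtain ⟨h0, hnc, -⟩ := mode_N1 hG hx
  rw [nc, card_eq_zero, filter_eq_empty_iff] at hnc
  have h1 := hnc (show y ∈ ch G r x by simp [ch, hxy])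
  push Not at h1
  have h2 := hf.1 y
  have h3 : f y ≠ 0 := fun h => h1.2 (child_U hG hf hxy (by omega) h)
  have h4 := h1.1
  omega

theorem col_ne {x y : V} (hxy : Child G r x y) :
    col (mode G r f x) ≠ col (mode G r f y) := by
  cases hm : mode G r f x
  · rw [mode_child hG hxy, hm]
    simp only [step]
    split_ifs <;> simp [col]
  · rw [mode_child hG hxy, hm]
    simp only [step]
    split_ifs <;> simp [col]
  · rw [mode_child hG hxy, hm]
    simp only [step]
    split_ifs <;> simp [col]
  · have h := child_N1 hG hf hm hxy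
    rw [mode_child hG hxy, hm]
    simp [step, h, col]

theorem proper : Proper G (fun x => col (mode G r f x)) := by
  intro x y hxy
  rcases level hG r hxy with h | h
  · exact col_ne hG hf ⟨hxy, h⟩
  · exact (col_ne hG hf ⟨hxy.symm, h⟩).symm

theorem dominating : UpDominating G (fun x => col (mode G r f x))
    (by classical exact univ.filter fun x => mode G r f x = .D1 ∨ mode G r f x = .D2) := by
  classical
  refine ⟨?_, ?_⟩
  · intro x hx
    simp only [mem_filter, mem_univ, true_and, not_or] at hx
    simp only [mem_filter, mem_univ, true_and]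
    have hpos : ∀ y, f y = 2 → 0 < col (mode G r f y) := by
      intro y hy
      rcases mode_two hG (r := r) hy with h | h <;> rw [h] <;> simp [col]
    cases hm : mode G r f x
    · exact absurd hm hx.1
    · exact absurd hm hx.2
    · -- mode `N0`
      by_cases h0 : f x = 0
      · obtain ⟨v, hv, hv2⟩ := hf.2 x h0
        exact ⟨v, mode_two hG hv2, hv, hpos v hv2⟩
      · -- weight one
        have h2 := mode_N0 hG hm
        have hr : x ≠ r := by
          rintro rfl
          rw [mode_root, if_neg h0] at hm
          exact absurd hm (by decide)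
        obtain ⟨p, hp⟩ := exists_parent hG hr
        refine ⟨p, ?_, hp.1.symm, ?_⟩
        · rw [mode_child hG hp] at hm
          cases hmp : mode G r f p
          · simp
          · simp
          · rw [hmp] at hm
            simp [step, h0] at hm
          · exact absurd (child_N1 hG hf hmp hp) h2
        · rw [mode_child hG hp] at hm
          cases hmp : mode G r f p
          · simp [col]
          · simp [col]
          · rw [hmp] at hm
            simp [step, h0] at hm
          · exact absurd (child_N1 hG hf hmp hp) h2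
    · -- mode `N1`
      obtain ⟨h0, hnc, p, hp, hmp⟩ := mode_N1 hG hm
      have hU := child_U hG hf hp (mode_N0 hG hmp) h0
      obtain ⟨-, y, hy, hy2⟩ := hU
      have h1 : mode G r f y = .D2 := by
        rw [mode_child hG hy, hm]
        simp [step, hy2]
      refine ⟨y, Or.inr h1, hy.1, ?_⟩
      rw [h1]
      simp [col]
  · intro x hx
    simp only [mem_filter, mem_univ, true_and] at hx
    rcases hx with h | h <;> simp [h, col]

end invariants

open Classical in
/-- The potential. -/
noncomputable def phi (G : SimpleGraph V) (r : V) (f : V → ℕ) (x : V) : ℤ :=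
  if f x = 2 then (if mode G r f x = .D1 then -1 else 0)
  else if f x = 1 then (if mode G r f x = .D1 then 0 else -1)
  else if mode G r f x = .D1 then 1 - nc G r f x
  else if mode G r f x = .N0 ∧ IsU G r f x then -1 else 0

section weight

variable (hG : G.IsTree) (hf : Roman G f)

include hG hf

theorem phi_le_of_D {x y : V} (hx : mode G r f x = .D1 ∨ mode G r f x = .D2)
    (hxy : Child G r x y) :
    phi G r f y ≤ 0 ∧ (f y = 1 ∨ IsU G r f y → phi G r f y ≤ -1) := by
  have hm := mode_child (f := f) hG hxy
  have hf2 := hf.1 y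
  by_cases h2 : f y = 2
  · refine ⟨?_, ?_⟩
    · rw [phi, if_pos h2]; split_ifs <;> norm_num
    · rintro (h | ⟨h, -⟩) <;> omega
  · have hN : mode G r f y = .N0 := by
      rw [hm]
      rcases hx with h | h <;> rw [h] <;> simp [step, h2]
    by_cases h1 : f y = 1
    · have : phi G r f y = -1 := by
        rw [phi, if_neg h2, if_pos h1, if_neg (by rw [hN]; decide)]
      rw [this]; norm_num
    · by_cases hU : IsU G r f y
      · have : phi G r f y = -1 := by
          rw [phi, if_neg h2, if_neg h1, if_neg (by rw [hN]; decide), if_pos ⟨hN, hU⟩]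
        rw [this]; norm_num
      · have : phi G r f y = 0 := by
          rw [phi, if_neg h2, if_neg h1, if_neg (by rw [hN]; decide), if_neg (by tauto)]
        rw [this]
        refine ⟨le_rfl, ?_⟩
        rintro (h | h)
        · exact absurd h h1
        · exact absurd h hU

theorem phi_le_of_N0 {x y : V} (hx : mode G r f x = .N0) (hxy : Child G r x y) :
    phi G r f y ≤ 0 ∧ (f y = 2 → phi G r f y ≤ -1) := by
  have hm := mode_child (f := f) hG hxy
  rw [hx] at hm
  have hf2 := hf.1 y
  by_cases h0 : f y = 0
  · by_cases hnc : nc G r f y = 0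
    · have hN : mode G r f y = .N1 := by rw [hm]; simp [step, h0, hnc]
      have : phi G r f y = 0 := by
        rw [phi, if_neg (by omega), if_neg (by omega), if_neg (by rw [hN]; decide),
          if_neg (by rw [hN]; rintro ⟨h, -⟩; exact absurd h (by decide))]
      rw [this]
      exact ⟨le_rfl, fun h => by omega⟩
    · have hN : mode G r f y = .D1 := by rw [hm]; simp [step, hnc]
      have : phi G r f y = 1 - nc G r f y := by
        rw [phi, if_neg (by omega), if_neg (by omega), if_pos hN]
      rw [this]
      exact ⟨by omega, fun h => by omega⟩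
  · have hN : mode G r f y = .D1 := by rw [hm]; simp [step, h0]
    by_cases h2 : f y = 2
    · have : phi G r f y = -1 := by rw [phi, if_pos h2, if_pos hN]
      rw [this]; norm_num
    · have : phi G r f y = 0 := by rw [phi, if_neg h2, if_pos (by omega), if_pos hN]
      rw [this]
      exact ⟨le_rfl, fun h => absurd h h2⟩

theorem phi_le_of_N1 {x y : V} (hx : mode G r f x = .N1) (hxy : Child G r x y) :
    phi G r f y ≤ 0 := by
  have h2 := child_N1 hG hf hx hxy
  rw [phi, if_pos h2]
  split_ifs <;> norm_num

theorem local_ineq (x : V) :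
    (cost (mode G r f x) : ℤ) - f x + ∑ y ∈ ch G r x, phi G r f y ≤ phi G r f x := by
  classical
  have hch : ∀ y, y ∈ ch G r x ↔ Child G r x y := by intro y; simp [ch]
  have hf2 := hf.1 x
  have hD : (mode G r f x = .D1 ∨ mode G r f x = .D2) →
      ∑ y ∈ ch G r x, phi G r f y ≤ -(nc G r f x : ℤ) := by
    intro hx
    calc ∑ y ∈ ch G r x, phi G r f y
        ≤ ∑ y ∈ ch G r x, (if f y = 1 ∨ IsU G r f y then (-1 : ℤ) else 0) := by
          refine sum_le_sum fun y hy => ?_
          have := phi_le_of_D hG hf hx ((hch y).1 hy)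
          split_ifs with h
          · exact this.2 h
          · exact this.1
      _ = -(nc G r f x : ℤ) := by
          rw [← sum_filter, sum_const, nc]
          simp
  cases hm : mode G r f x
  · -- D1
    have h1 := hD (Or.inl hm)
    rw [phi]
    simp only [hm, cost, if_true]
    split_ifs with h2 h3
    · rw [h2]; push_cast; omega
    · rw [h3]; push_cast; omega
    · have h0 : f x = 0 := by omega
      rw [h0]; push_cast; omega
  · -- D2
    have h1 := hD (Or.inr hm)
    have h2 := mode_D2 hG hm
    rw [phi, if_pos h2, if_neg (by rw [hm]; decide), h2]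
    simp only [cost]
    push_cast
    omega
  · -- N0
    have h2 := mode_N0 hG hm
    have h1 : ∑ y ∈ ch G r x, phi G r f y ≤ 0 :=
      sum_nonpos fun y hy => (phi_le_of_N0 hG hf hm ((hch y).1 hy)).1
    have hphi : phi G r f x = (if f x = 1 then -1 else if IsU G r f x then -1 else 0) := by
      rw [phi, if_neg h2]
      simp [hm]
    rw [hphi]
    simp only [cost]
    by_cases h3 : f x = 1
    · rw [if_pos h3, h3]
      push_cast
      omega
    · have h0 : f x = 0 := by omega
      rw [if_neg h3]
      by_cases hU : IsU G r f x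
      · rw [if_pos hU]
        obtain ⟨-, y, hy, hy2⟩ := hU
        have h4 : ∑ z ∈ ch G r x, phi G r f z ≤ phi G r f y :=
          calc ∑ z ∈ ch G r x, phi G r f z
              = phi G r f y + ∑ z ∈ (ch G r x).erase y, phi G r f z :=
                (add_sum_erase _ _ ((hch y).2 hy)).symm
            _ ≤ phi G r f y + 0 := by
                refine add_le_add le_rfl (sum_nonpos fun z hz => ?_)
                exact (phi_le_of_N0 hG hf hm ((hch z).1 (mem_of_mem_erase hz))).1
            _ = phi G r f y := add_zero _
        have h5 := (phi_le_of_N0 hG hf hm hy).2 hy2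
        push_cast
        omega
      · rw [if_neg hU]
        push_cast
        omega
  · -- N1
    obtain ⟨h0, hnc, -⟩ := mode_N1 hG hm
    have h1 : ∑ y ∈ ch G r x, phi G r f y ≤ 0 :=
      sum_nonpos fun y hy => phi_le_of_N1 hG hf hm ((hch y).1 hy)
    rw [phi, if_neg (by omega), if_neg (by omega), if_neg (by rw [hm]; decide),
      if_neg (by rw [hm]; rintro ⟨h, -⟩; exact absurd h (by decide)), h0]
    simp only [cost]
    push_cast
    omega

theorem root_phi : phi G r f r ≤ 0 := by
  have hf2 := hf.1 r
  rw [phi, mode_root]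
  by_cases h0 : f r = 0
  · rw [if_neg (by omega), if_neg (by omega), if_pos h0, if_neg (by decide)]
    split_ifs <;> norm_num
  · rw [if_neg h0]
    by_cases h2 : f r = 2
    · rw [if_pos h2, if_pos rfl]; norm_num
    · rw [if_neg h2, if_pos (by omega), if_pos rfl]

theorem total : ∑ x, (cost (mode G r f x) : ℤ) ≤ ∑ x, (f x : ℤ) := by
  classical
  have h1 : ∑ x, ((cost (mode G r f x) : ℤ) - f x + ∑ y ∈ ch G r x, phi G r f y) ≤
      ∑ x, phi G r f x := sum_le_sum fun x _ => local_ineq hG hf x
  have h2 : ∑ x, ∑ y ∈ ch G r x, phi G r f y = ∑ y ∈ univ.erase r, phi G r f y := by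
    have h3 : ∀ x, ∑ y ∈ ch G r x, phi G r f y =
        ∑ y, if Child G r x y then phi G r f y else 0 := by
      intro x
      rw [ch, sum_filter]
    simp only [h3]
    rw [sum_comm, ← sum_filter_add_sum_filter_not univ (fun y => y ≠ r)]
    have h4 : ∑ y ∈ univ.filter (fun y => ¬ y ≠ r),
        ∑ x, (if Child G r x y then phi G r f y else 0) = 0 := by
      refine sum_eq_zero fun y hy => sum_eq_zero fun x _ => ?_
      have hy' : y = r := by simpa using hy
      rw [if_neg]
      rintro ⟨-, h⟩
      rw [hy', SimpleGraph.dist_self] at h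
      omega
    rw [h4, add_zero, filter_ne']
    refine sum_congr rfl fun y hy => ?_
    obtain ⟨p, hp⟩ := exists_parent hG (ne_of_mem_erase hy)
    rw [sum_eq_single p]
    · rw [if_pos hp]
    · intro x _ hx
      rw [if_neg]
      intro h
      exact hx (parent_unique hG r h hp)
    · intro h
      exact absurd (mem_univ p) h
  rw [sum_add_distrib, sum_sub_distrib, h2] at h1
  have h5 : ∑ x, phi G r f x = phi G r f r + ∑ y ∈ univ.erase r, phi G r f y :=
    (add_sum_erase _ _ (mem_univ r)).symm
  have h6 := root_phi (r := r) hG hf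
  linarith

end weight

theorem upWeight_le (hG : G.IsTree) (hf : Roman G f) : upWeight G ≤ ∑ v, f v := by
  classical
  obtain ⟨r⟩ : Nonempty V := hG.connected.nonempty
  set D := univ.filter fun x => mode G r f x = .D1 ∨ mode G r f x = .D2 with hD
  have h1 : ∑ d ∈ D, col (mode G r f d) = ∑ x, cost (mode G r f x) := by
    rw [hD, sum_filter]
    refine sum_congr rfl fun x _ => ?_
    cases mode G r f x <;> simp [col, cost]
  have h2 : upWeight G ≤ ∑ d ∈ D, col (mode G r f d) := by
    refine Nat.sInf_le ⟨fun x => col (mode G r f x), D, proper hG hf, ?_, rfl⟩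
    have := dominating (r := r) hG hf
    convert this
  have h3 := total (r := r) hG hf
  rw [h1] at h2
  have h4 : ∑ x, cost (mode G r f x) ≤ ∑ x, f x := by exact_mod_cast h3
  exact h2.trans h4

/-- Every tree `T` satisfies `Ω_uc(T) ≤ γ_r(T)`. -/
theorem result {V : Type*} [Fintype V] (T : SimpleGraph V) (hT : T.IsTree) :
    upWeight T ≤ romanNum T := by
  have hne : {k | ∃ f : V → ℕ, Roman T f ∧ ∑ v, f v = k}.Nonempty :=
    ⟨_, fun _ => 1, ⟨fun _ => by norm_num, fun _ h => absurd h one_ne_zero⟩, rfl⟩
  obtain ⟨f, hf, hk⟩ := Nat.sInf_mem hne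
  rw [romanNum, ← hk]
  exact upWeight_le hT hf

end Pool.Agent.Results.MP_ca77af_co.UpColorRoman
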